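import Pool.Agent.Helper22.LIL.Defs
import Pool.Agent.Helper14.GP.NearShort

/-!
# Block NBG of the LIL project (MP_fb29e9_nt): a lower bound for linear forms in square roots
-/

open MeasureTheory Filter Set
open scoped Real Topology

namespace Pool.Agent.Helper22.LIL

open Pool.Agent.Helper22.GC Pool.Agent.Helper53.OM

noncomputable section

/-- signed sum of the `c i √i`, `+` on `A`, `-` outside `A` -/
def NBG_L (c : ℕ → ℤ) (S A : Finset ℕ) : ℝ :=
  ∑ i ∈ S, if i ∈ A then (c i : ℝ) * √(i : ℝ) else -((c i : ℝ) * √(i : ℝ))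

/-- product over all signs -/
def NBG_F (c : ℕ → ℤ) (S : Finset ℕ) (t : ℝ) : ℝ := ∏ A ∈ S.powerset, (t + NBG_L c S A)

private theorem L_insert_of_sub (c : ℕ → ℤ) {S A : Finset ℕ} {a : ℕ} (ha : a ∉ S) (hA : A ⊆ S) :
    NBG_L c (insert a S) A = NBG_L c S A - (c a : ℝ) * √(a : ℝ) := by
  unfold NBG_L
  rw [Finset.sum_insert ha, if_neg fun h => ha (hA h)]
  ring

private theorem L_insert_insert (c : ℕ → ℤ) {S A : Finset ℕ} {a : ℕ} (ha : a ∉ S) :
    NBG_L c (insert a S) (insert a A) = NBG_L c S A + (c a : ℝ) * √(a : ℝ) := by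
  unfold NBG_L
  rw [Finset.sum_insert ha, if_pos (Finset.mem_insert_self a A), add_comm]
  congr 1
  refine Finset.sum_congr rfl fun i hi => ?_
  have hne : i ≠ a := fun h => ha (h ▸ hi)
  by_cases h : i ∈ A
  · rw [if_pos h, if_pos (Finset.mem_insert_of_mem h)]
  · rw [if_neg h, if_neg]
    intro h'
    rcases Finset.mem_insert.1 h' with h' | h'
    · exact hne h'
    · exact h h'

private theorem F_insert (c : ℕ → ℤ) {S : Finset ℕ} {a : ℕ} (ha : a ∉ S) (t : ℝ) :
    NBG_F c (insert a S) t =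
      NBG_F c S (t - (c a : ℝ) * √(a : ℝ)) * NBG_F c S (t + (c a : ℝ) * √(a : ℝ)) := by
  unfold NBG_F
  rw [Finset.prod_powerset_insert ha]
  congr 1
  · refine Finset.prod_congr rfl fun A hA => ?_
    rw [L_insert_of_sub c ha (Finset.mem_powerset.1 hA)]
    ring
  · refine Finset.prod_congr rfl fun A _ => ?_
    rw [L_insert_insert c ha]
    ring

private theorem F_poly (c : ℕ → ℤ) (S : Finset ℕ) :
    ∃ g : Polynomial ℤ, ∀ t : ℝ, Polynomial.aeval t g = NBG_F c S t := by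
  induction S using Finset.induction_on with
  | empty => exact ⟨Polynomial.X, fun t => by simp [NBG_F, NBG_L]⟩
  | insert a S ha ih =>
    obtain ⟨g, hg⟩ := ih
    obtain ⟨A, B, h⟩ := Pool.Agent.Helper60.GP.NB.split g ((c a).natAbs ^ 2 * a)
    set z : ℝ := (c a : ℝ) * √(a : ℝ) with hz
    have hz2 : z ^ 2 = (((c a).natAbs ^ 2 * a : ℕ) : ℝ) := by
      rw [hz, mul_pow, Real.sq_sqrt (Nat.cast_nonneg a)]
      push_cast
      rw [Nat.cast_natAbs]
      push_cast
      rw [sq_abs]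
    refine ⟨A ^ 2 - Polynomial.C (((c a).natAbs ^ 2 * a : ℕ) : ℤ) * B ^ 2, fun t => ?_⟩
    rw [F_insert c ha, ← hg, ← hg]
    have h1 := h t z hz2
    have h2 := h t (-z) (by rw [neg_sq, hz2])
    rw [← sub_eq_add_neg] at h2
    rw [h1, h2]
    simp only [map_sub, map_mul, map_pow, Polynomial.aeval_C]
    simp only [algebraMap_int_eq, eq_intCast, Int.cast_natCast]
    rw [← hz2]
    ring

/-- NBG: a lower bound for linear forms in square roots. -/
theorem norm_bound {S : Finset ℕ} (hS : ∀ q ∈ S, Squarefree q) (c : ℕ → ℤ)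
    (hc : ∃ q ∈ S, c q ≠ 0) {B : ℝ} (hB1 : 1 ≤ B) (hB : ∑ q ∈ S, |(c q : ℝ)| * √(q : ℝ) ≤ B) :
    1 ≤ |∑ q ∈ S, (c q : ℝ) * √(q : ℝ)| * B ^ (2 ^ S.card) := by
  classical
  have hB0 : 0 ≤ B := by linarith
  -- every factor is bounded
  have hle : ∀ A, |NBG_L c S A| ≤ B := by
    intro A
    unfold NBG_L
    refine ((Finset.abs_sum_le_sum_abs _ _).trans (Finset.sum_le_sum fun q _ => ?_)).trans hB
    split_ifs
    · rw [abs_mul, abs_of_nonneg (Real.sqrt_nonneg _)]
    · rw [abs_neg, abs_mul, abs_of_nonneg (Real.sqrt_nonneg _)]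
  -- no factor vanishes
  have hne : ∀ A, NBG_L c S A ≠ 0 := by
    intro A h0
    obtain ⟨q₀, hq₀, hc₀⟩ := hc
    have h1 : ∑ q ∈ S, (((if q ∈ A then c q else -c q : ℤ)) : ℝ) * √(q : ℝ) = 0 := by
      rw [← h0]
      unfold NBG_L
      refine Finset.sum_congr rfl fun q _ => ?_
      split_ifs
      · rfl
      · push_cast; ring
    have h2 := Pool.Agent.Helper78.GC.sqrt_indep S hS (fun q => if q ∈ A then c q else -c q) h1 q₀ hq₀
    split_ifs at h2
    · exact hc₀ h2
    · exact hc₀ (neg_eq_zero.1 h2)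
  -- the product is an integer
  obtain ⟨g, hg⟩ := F_poly c S
  have hint : NBG_F c S 0 = ((Polynomial.eval 0 g : ℤ) : ℝ) := by
    rw [← hg]
    have h2 : Polynomial.aeval (algebraMap ℤ ℝ 0) g = algebraMap ℤ ℝ (Polynomial.eval 0 g) :=
      Polynomial.aeval_algebraMap_apply_eq_algebraMap_eval 0 g
    simpa using h2
  have hF0 : NBG_F c S 0 ≠ 0 := by
    unfold NBG_F
    rw [Finset.prod_ne_zero_iff]
    intro A _
    rw [zero_add]
    exact hne A
  have hF1 : 1 ≤ |NBG_F c S 0| := by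
    rw [hint] at hF0 ⊢
    have h3 : Polynomial.eval 0 g ≠ 0 := by
      intro h
      rw [h] at hF0
      simp at hF0
    have h4 : 1 ≤ |Polynomial.eval 0 g| := Int.one_le_abs h3
    exact_mod_cast h4
  -- the main factor
  have hmain : NBG_L c S S = ∑ q ∈ S, (c q : ℝ) * √(q : ℝ) := by
    unfold NBG_L
    exact Finset.sum_congr rfl fun q hq => if_pos hq
  have hup : |NBG_F c S 0| ≤ |∑ q ∈ S, (c q : ℝ) * √(q : ℝ)| * B ^ (2 ^ S.card - 1) := by
    unfold NBG_F
    rw [Finset.abs_prod, ← Finset.mul_prod_erase _ _ (Finset.mem_powerset.2 (Finset.Subset.refl S)),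
      zero_add, hmain]
    refine mul_le_mul_of_nonneg_left ?_ (abs_nonneg _)
    refine (Finset.prod_le_prod (fun _ _ => abs_nonneg _) (fun A _ => ?_)).trans
      (le_of_eq ?_) (b := ∏ _A ∈ S.powerset.erase S, B)
    · rw [zero_add]
      exact hle A
    · rw [Finset.prod_const, Finset.card_erase_of_mem (Finset.mem_powerset.2 (Finset.Subset.refl S)),
        Finset.card_powerset]
  calc (1 : ℝ) ≤ |∑ q ∈ S, (c q : ℝ) * √(q : ℝ)| * B ^ (2 ^ S.card - 1) := hF1.trans hup
    _ ≤ |∑ q ∈ S, (c q : ℝ) * √(q : ℝ)| * B ^ (2 ^ S.card) :=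
        mul_le_mul_of_nonneg_left (pow_le_pow_right₀ hB1 (Nat.sub_le _ _)) (abs_nonneg _)

end

end Pool.Agent.Helper22.LIL
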