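import Pool.Agent.Helper22.LIL.Defs
import Pool.Agent.Helper38.GP.Count

/-!
# Block LW2 of the LIL project (MP_fb29e9_nt): the set of frequencies for the lower bound
-/

open MeasureTheory Filter Set
open scoped Real Topology

namespace Pool.Agent.Helper22.LIL

open Pool.Agent.Helper22.GC Pool.Agent.Helper53.OM

noncomputable section

/-- LW2: the set of frequencies for the lower bound. -/
theorem exists_T : ∃ c : ℝ, 0 < c ∧ ∃ j₀ : ℕ, ∀ j : ℕ, j₀ ≤ j →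
    ∃ T : Finset ℕ, T ⊆ sqf (2 ^ j) ∧ T.card ≤ j / 8 ∧
      ∀ k : ℕ, 4 ^ j ≤ k → k < 2 * 4 ^ j → c * Phi k ≤ ∑ q ∈ T, rho q := by
  classical
  obtain ⟨c, hc, V₀, hV⟩ := Pool.Agent.Helper60.GP.count_sqf
  obtain ⟨C, hCdef⟩ : ∃ C : ℝ, C = 1 / (4 * c) := ⟨_, rfl⟩
  have hC : 0 < C := by rw [hCdef]; positivity
  obtain ⟨g, hg⟩ : ∃ g : ℝ, g = kap - 1 := ⟨_, rfl⟩
  have hg0 : 0 ≤ g := by
    have := kap_ge
    rw [hg]; linarith
  have hg1 : g ≤ 1 := by
    have := kap_le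
    rw [hg]; linarith
  -- thresholds
  have t0 : Tendsto (fun j : ℕ => (j : ℝ)) atTop atTop := tendsto_natCast_atTop_atTop
  have t1 : Tendsto (fun j : ℕ => √(j : ℝ)) atTop atTop := Real.tendsto_sqrt_atTop.comp t0
  have t2 : Tendsto (fun j : ℕ => Real.log (j : ℝ)) atTop atTop := Real.tendsto_log_atTop.comp t0
  have e1 : ∀ᶠ j : ℕ in atTop, Real.log (j : ℝ) ≤ C * √(j : ℝ) := by
    have h1 := (isLittleO_log_rpow_atTop (show (0 : ℝ) < 1 / 2 by norm_num)).bound hC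
    have h2 := t0.eventually h1
    filter_upwards [h2, eventually_ge_atTop 1] with j hj hj1
    have hj1' : (1 : ℝ) ≤ j := by exact_mod_cast hj1
    rw [Real.norm_of_nonneg (Real.log_nonneg hj1'), Real.norm_of_nonneg (by positivity),
      ← Real.sqrt_eq_rpow] at hj
    exact hj
  have e2 := t1.eventually_ge_atTop V₀
  have e3 := t2.eventually_ge_atTop 1
  have e4 : ∀ᶠ j : ℕ in atTop, C ^ 2 * (j : ℝ) ^ 2 ≤ 2 ^ j := by
    have h1 : Tendsto (fun k : ℕ => (k : ℝ) ^ 2 / 2 ^ k) atTop (𝓝 0) :=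
      tendsto_pow_const_div_const_pow_of_one_lt 2 (by norm_num)
    have h2 : ∀ᶠ k : ℕ in atTop, (k : ℝ) ^ 2 / 2 ^ k < 1 / C ^ 2 :=
      h1.eventually (gt_mem_nhds (by positivity))
    filter_upwards [h2] with j hj
    rw [div_lt_div_iff₀ (by positivity) (by positivity)] at hj
    linarith
  obtain ⟨j₀, hj₀⟩ := eventually_atTop.1 (e1.and (e2.and (e3.and (e4.and (eventually_ge_atTop 16)))))
  refine ⟨1 / 64 * C ^ (-(3 / 4) : ℝ), by positivity, j₀, ?_⟩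
  intro j hj
  obtain ⟨f1, f2, f3, f4, f5⟩ := hj₀ j hj
  have hj16 : (16 : ℝ) ≤ j := by exact_mod_cast f5
  have hj0 : (0 : ℝ) < j := by linarith
  obtain ⟨L, hL⟩ : ∃ L : ℝ, L = Real.log (j : ℝ) := ⟨_, rfl⟩
  rw [← hL] at f1 f3
  have hL0 : 0 < L := by linarith
  have hLg1 : 1 ≤ L ^ g := Real.one_le_rpow f3 hg0
  have hLg0 : 0 < L ^ g := by linarith
  have hLg2 : L ^ g ≤ L := by
    calc L ^ g ≤ L ^ (1 : ℝ) := Real.rpow_le_rpow_of_exponent_le f3 hg1
      _ = L := Real.rpow_one L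
  obtain ⟨V, hVdef⟩ : ∃ V : ℝ, V = C * j / L ^ g := ⟨_, rfl⟩
  have hV0 : 0 < V := by rw [hVdef]; positivity
  have hVge : √(j : ℝ) ≤ V := by
    rw [hVdef, le_div_iff₀ hLg0]
    calc √(j : ℝ) * L ^ g ≤ √(j : ℝ) * (C * √(j : ℝ)) :=
          mul_le_mul_of_nonneg_left (hLg2.trans f1) (Real.sqrt_nonneg _)
      _ = C * (√(j : ℝ) * √(j : ℝ)) := by ring
      _ = C * j := by rw [Real.mul_self_sqrt hj0.le]
  have hVle : V ≤ C * j := by
    rw [hVdef]
    exact div_le_self (by positivity) hLg1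
  have hlogV : L / 2 ≤ Real.log V := by
    have h1 : Real.log (√(j : ℝ)) ≤ Real.log V := Real.log_le_log (Real.sqrt_pos.2 hj0) hVge
    rw [Real.log_sqrt hj0.le, ← hL] at h1
    exact h1
  obtain ⟨M, hM1, hM2, hM3, hM4⟩ := hV V (f2.trans hVge)
  rw [← hg] at hM4
  -- the size of `M`
  have hMcard : (j : ℝ) / 8 ≤ M.card := by
    refine le_trans ?_ hM4
    have h1 : (L / 2) ^ g ≤ (Real.log V) ^ g := Real.rpow_le_rpow (by positivity) hlogV hg0
    have h2 : (L / 2) ^ g = L ^ g * (1 / 2 : ℝ) ^ g := by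
      rw [← Real.mul_rpow hL0.le (by norm_num)]
      congr 1
      ring
    have h3 : (1 / 2 : ℝ) ≤ (1 / 2 : ℝ) ^ g := by
      calc (1 / 2 : ℝ) = (1 / 2 : ℝ) ^ (1 : ℝ) := (Real.rpow_one _).symm
        _ ≤ (1 / 2 : ℝ) ^ g :=
          Real.rpow_le_rpow_of_exponent_ge (by norm_num) (by norm_num) hg1
    have h4 : L ^ g / 2 ≤ (Real.log V) ^ g := by
      refine le_trans ?_ h1
      rw [h2]
      nlinarith
    calc (j : ℝ) / 8 = c * V * (L ^ g / 2) := by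
          rw [hVdef, hCdef]
          field_simp
          ring
      _ ≤ c * V * (Real.log V) ^ g := mul_le_mul_of_nonneg_left h4 (by positivity)
  have hcard : j / 8 ≤ M.card := by
    have h1 : ((j / 8 : ℕ) : ℝ) ≤ (j : ℝ) / 8 := by exact_mod_cast Nat.cast_div_le
    have h2 : ((j / 8 : ℕ) : ℝ) ≤ (M.card : ℝ) := h1.trans hMcard
    exact_mod_cast h2
  obtain ⟨T, hTM, hTc⟩ := Finset.exists_subset_card_eq hcard
  refine ⟨T, ?_, hTc.le, ?_⟩
  · intro q hq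
    have hqM := hTM hq
    obtain ⟨hq1, hq2⟩ := Finset.mem_Icc.1 (hM1 hqM)
    refine Finset.mem_filter.2 ⟨Finset.mem_Icc.2 ⟨hq1, ?_⟩, hM2 q hqM⟩
    have h1 : (q : ℝ) ≤ V ^ 2 := (Nat.le_floor_iff (by positivity)).1 hq2
    have h2 : V ^ 2 ≤ (C * j) ^ 2 := pow_le_pow_left₀ hV0.le hVle 2
    have h3 : (q : ℝ) ≤ (2 : ℝ) ^ j := by
      refine h1.trans (h2.trans ?_)
      rw [mul_pow]
      exact f4
    exact_mod_cast h3
  · intro k hk1 hk2
    -- the upper bound for `Phi k`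
    have h4j : (0 : ℝ) < 4 ^ j := by positivity
    have hk1' : (4 : ℝ) ^ j ≤ k := by exact_mod_cast hk1
    have hk2' : (k : ℝ) ≤ 2 * 4 ^ j := by exact_mod_cast hk2.le
    have hk0 : (0 : ℝ) < k := lt_of_lt_of_le h4j hk1'
    have hlog4 : Real.log 4 = 2 * Real.log 2 := by
      rw [show (4 : ℝ) = 2 ^ 2 by norm_num, Real.log_pow]
      push_cast
      ring
    have hl2 := Real.log_two_lt_d9
    have hl2' := Real.log_two_gt_d9
    have hlogk : Real.log k ≤ 2 * j := by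
      have h1 : Real.log k ≤ Real.log (2 * 4 ^ j) := Real.log_le_log hk0 hk2'
      rw [Real.log_mul (by norm_num) h4j.ne', Real.log_pow, hlog4] at h1
      nlinarith
    have hlogk1 : 1 ≤ Real.log k := by
      have h1 : Real.log ((4 : ℝ) ^ j) ≤ Real.log k := Real.log_le_log h4j hk1'
      rw [Real.log_pow, hlog4] at h1
      nlinarith
    have hll0 : 0 ≤ Real.log (Real.log k) := Real.log_nonneg hlogk1
    have hll : Real.log (Real.log k) ≤ 2 * L := by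
      have h1 : Real.log (Real.log k) ≤ Real.log (2 * j) := Real.log_le_log (by linarith) hlogk
      rw [Real.log_mul (by norm_num) hj0.ne', ← hL] at h1
      linarith
    have hPhi : Phi k ≤ 4 * ((j : ℝ) ^ (1 / 4 : ℝ) * L ^ ((3 / 4 : ℝ) * g)) := by
      unfold Phi
      rw [← hg]
      have h34 : 0 ≤ (3 / 4 : ℝ) * g := by positivity
      have h34' : (3 / 4 : ℝ) * g ≤ 1 := by linarith
      have h1 : (Real.log k) ^ (1 / 4 : ℝ) ≤ 2 * (j : ℝ) ^ (1 / 4 : ℝ) := by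
        calc (Real.log k) ^ (1 / 4 : ℝ) ≤ (2 * (j : ℝ)) ^ (1 / 4 : ℝ) :=
              Real.rpow_le_rpow (by linarith) hlogk (by norm_num)
          _ = 2 ^ (1 / 4 : ℝ) * (j : ℝ) ^ (1 / 4 : ℝ) := Real.mul_rpow (by norm_num) hj0.le
          _ ≤ 2 * (j : ℝ) ^ (1 / 4 : ℝ) := by
              apply mul_le_mul_of_nonneg_right _ (by positivity)
              calc (2 : ℝ) ^ (1 / 4 : ℝ) ≤ 2 ^ (1 : ℝ) :=
                    Real.rpow_le_rpow_of_exponent_le (by norm_num) (by norm_num)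
                _ = 2 := Real.rpow_one 2
      have h2 : (Real.log (Real.log k)) ^ ((3 / 4 : ℝ) * g) ≤ 2 * L ^ ((3 / 4 : ℝ) * g) := by
        calc (Real.log (Real.log k)) ^ ((3 / 4 : ℝ) * g) ≤ (2 * L) ^ ((3 / 4 : ℝ) * g) :=
              Real.rpow_le_rpow hll0 hll h34
          _ = 2 ^ ((3 / 4 : ℝ) * g) * L ^ ((3 / 4 : ℝ) * g) := Real.mul_rpow (by norm_num) hL0.le
          _ ≤ 2 * L ^ ((3 / 4 : ℝ) * g) := by
              apply mul_le_mul_of_nonneg_right _ (by positivity)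
              calc (2 : ℝ) ^ ((3 / 4 : ℝ) * g) ≤ 2 ^ (1 : ℝ) :=
                    Real.rpow_le_rpow_of_exponent_le (by norm_num) h34'
                _ = 2 := Real.rpow_one 2
      calc (Real.log k) ^ (1 / 4 : ℝ) * (Real.log (Real.log k)) ^ ((3 / 4 : ℝ) * g)
          ≤ (2 * (j : ℝ) ^ (1 / 4 : ℝ)) * (2 * L ^ ((3 / 4 : ℝ) * g)) :=
            mul_le_mul h1 h2 (Real.rpow_nonneg hll0 _) (by positivity)
        _ = _ := by ring
    -- the lower bound for the sum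
    have hVpow : V ^ (-(3 / 4) : ℝ) =
        C ^ (-(3 / 4) : ℝ) * (j : ℝ) ^ (-(3 / 4) : ℝ) * L ^ ((3 / 4 : ℝ) * g) := by
      rw [hVdef, Real.div_rpow (by positivity) hLg0.le, Real.mul_rpow hC.le hj0.le,
        ← Real.rpow_mul hL0.le, div_eq_mul_inv, ← Real.rpow_neg hL0.le]
      congr 2
      ring
    have hj34 : (j : ℝ) * (j : ℝ) ^ (-(3 / 4) : ℝ) = (j : ℝ) ^ (1 / 4 : ℝ) := by
      nth_rewrite 1 [← Real.rpow_one (j : ℝ)]
      rw [← Real.rpow_add hj0]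
      norm_num
    have hjd : (j : ℝ) / 16 ≤ ((j / 8 : ℕ) : ℝ) := by
      have h1 : j ≤ 16 * (j / 8) := by omega
      have h2 : (j : ℝ) ≤ 16 * ((j / 8 : ℕ) : ℝ) := by exact_mod_cast h1
      linarith
    have hsum : ((j / 8 : ℕ) : ℝ) * V ^ (-(3 / 4) : ℝ) ≤ ∑ q ∈ T, rho q := by
      rw [← hTc, ← nsmul_eq_mul]
      refine Finset.card_nsmul_le_sum _ _ _ fun q hq => ?_
      exact hM3 q (hTM hq)
    refine le_trans ?_ hsum
    calc 1 / 64 * C ^ (-(3 / 4) : ℝ) * Phi k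
        ≤ 1 / 64 * C ^ (-(3 / 4) : ℝ) * (4 * ((j : ℝ) ^ (1 / 4 : ℝ) * L ^ ((3 / 4 : ℝ) * g))) :=
          mul_le_mul_of_nonneg_left hPhi (by positivity)
      _ = (j : ℝ) / 16 * V ^ (-(3 / 4) : ℝ) := by
          rw [hVpow, ← hj34]
          ring
      _ ≤ ((j / 8 : ℕ) : ℝ) * V ^ (-(3 / 4) : ℝ) :=
          mul_le_mul_of_nonneg_right hjd (by positivity)

end

end Pool.Agent.Helper22.LIL
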