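import Pool.Agent.Helper12.LIL.UCof
import Pool.Agent.Helper46.LIL.ME

/-!
# Block UD of the LIL project (MP_fb29e9_nt): almost everywhere convergence
-/

open MeasureTheory Filter Set
open scoped Real Topology

namespace Pool.Agent.Helper22.LIL

open Pool.Agent.Helper22.GC Pool.Agent.Helper53.OM

noncomputable section

theorem UD_le_Nk (k : ℕ) : k ^ 10 ≤ Nk k := by
  unfold Nk
  rw [mul_comm 10, pow_mul]
  exact Nat.pow_le_pow_left (Nat.lt_pow_succ_log_self (by norm_num) k).le 10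

theorem UD_Nk_le {k : ℕ} (hk : 1 ≤ k) : Nk k ≤ (2 * k) ^ 10 := by
  unfold Nk
  rw [mul_comm 10, pow_mul]
  refine Nat.pow_le_pow_left ?_ 10
  rw [pow_succ, mul_comm]
  exact Nat.mul_le_mul_left 2 (Nat.pow_log_le_self 2 (by omega))

theorem UD_lac {β : ℝ} (hβ : 1 < β) {lam : ℕ → ℝ} (hl : Lac β lam) (k : ℕ) :
    β ^ k * lam 0 ≤ lam k := by
  induction k with
  | zero => simp
  | succ n ih =>
    calc β ^ (n + 1) * lam 0 = β * (β ^ n * lam 0) := by ring
      _ ≤ β * lam n := mul_le_mul_of_nonneg_left ih (by linarith)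
      _ ≤ lam (n + 1) := hl.2 n

/-- UD: almost everywhere convergence. -/
theorem err_ae {β : ℝ} (hβ : 1 < β) {lam : ℕ → ℝ} (hl : Lac β lam) {a b : ℝ} (ha : 0 < a)
    (hab : a < b) (hb : b ≤ 3 / 2 * a) :
    ∀ᵐ α ∂(volume.restrict (Icc a b)), Tendsto (fun k : ℕ =>
      Pe (α * lam k) / √(α * lam k) - TK (Nk k) (α * lam k)) atTop (𝓝 0) := by
  obtain ⟨C, L₀, hC, hS⟩ := err_scaled_of measurable_Pe continuous_TK abs_Pe_le ha hab hb
  have hlac := UD_lac hβ hl
  have hl0 : 0 < lam 0 := hl.1 0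
  have hβ0 : 0 < β := by linarith
  -- the thresholds
  have t1 : Tendsto lam atTop atTop := by
    refine tendsto_atTop_mono hlac ?_
    exact (tendsto_pow_atTop_atTop_of_one_lt hβ).atTop_mul_const hl0
  have e1 := t1.eventually_ge_atTop L₀
  have e2 := t1.eventually_ge_atTop (1 / a)
  have t2 : Tendsto (fun k : ℕ => (k : ℝ) ^ 10 / β ^ k) atTop (𝓝 0) :=
    tendsto_pow_const_div_const_pow_of_one_lt 10 hβ
  have e3 : ∀ᶠ k : ℕ in atTop, (k : ℝ) ^ 10 / β ^ k < a / 2 * lam 0 / 2 ^ 10 :=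
    t2.eventually (gt_mem_nhds (by positivity))
  obtain ⟨k₀, hk₀⟩ := eventually_atTop.1 (e1.and (e2.and (e3.and (eventually_ge_atTop 1))))
  -- the bound for the integrals
  set D : ℕ → ℝ → ℝ := fun k α => Pe (α * lam k) / √(α * lam k) - TK (Nk k) (α * lam k) with hD
  have hbd : ∀ k, k₀ ≤ k → ∫ α in a..b, (D k α) ^ 2 ≤
      C * ((1 : ℝ) / (k : ℝ) ^ 2 + (lam 0) ^ (-(1 / 4) : ℝ) * ((β ^ (-(1 / 4) : ℝ)) ^ k)) := by
    intro k hk
    obtain ⟨h1, h2, h3, h4⟩ := hk₀ k hk
    have hkr : (1 : ℝ) ≤ k := by exact_mod_cast h4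
    have hk0 : (0 : ℝ) < k := by linarith
    have hNkr : (Nk k : ℝ) ≤ (2 * (k : ℝ)) ^ 10 := by exact_mod_cast UD_Nk_le h4
    have hNkr' : ((k : ℝ)) ^ 10 ≤ Nk k := by exact_mod_cast UD_le_Nk k
    have hNk1 : 1 ≤ Nk k := Nat.one_le_two_pow
    have h5 : (Nk k : ℝ) ≤ a / 2 * lam k := by
      have hpos : 0 < β ^ k := by positivity
      rw [div_lt_iff₀ hpos] at h3
      calc (Nk k : ℝ) ≤ (2 * (k : ℝ)) ^ 10 := hNkr
        _ = 2 ^ 10 * (k : ℝ) ^ 10 := by rw [mul_pow]
        _ ≤ 2 ^ 10 * (a / 2 * lam 0 / 2 ^ 10 * β ^ k) :=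
            mul_le_mul_of_nonneg_left h3.le (by positivity)
        _ = a / 2 * (β ^ k * lam 0) := by ring
        _ ≤ a / 2 * lam k := mul_le_mul_of_nonneg_left (hlac k) (by positivity)
    refine (hS (lam k) (Nk k) h1 hNk1 h5).trans ?_
    refine mul_le_mul_of_nonneg_left ?_ hC.le
    refine add_le_add ?_ ?_
    · calc (Nk k : ℝ) ^ (-(1 / 5) : ℝ) ≤ ((k : ℝ) ^ 10) ^ (-(1 / 5) : ℝ) :=
            Real.rpow_le_rpow_of_nonpos (by positivity) hNkr' (by norm_num)
        _ = 1 / (k : ℝ) ^ 2 := by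
            have h6 : (1 : ℝ) / (k : ℝ) ^ 2 = (k : ℝ) ^ (-(2 : ℝ)) := by
              rw [Real.rpow_neg hk0.le, Real.rpow_two, one_div]
            rw [h6, ← Real.rpow_natCast, ← Real.rpow_mul hk0.le]
            norm_num
    · calc (lam k) ^ (-(1 / 4) : ℝ) ≤ (β ^ k * lam 0) ^ (-(1 / 4) : ℝ) :=
            Real.rpow_le_rpow_of_nonpos (by positivity) (hlac k) (by norm_num)
        _ = (lam 0) ^ (-(1 / 4) : ℝ) * ((β ^ (-(1 / 4) : ℝ)) ^ k) := by
            rw [Real.mul_rpow (by positivity) hl0.le, ← Real.rpow_natCast β k,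
              ← Real.rpow_natCast _ k, ← Real.rpow_mul hβ0.le, ← Real.rpow_mul hβ0.le, mul_comm]
            congr 2
            ring
  -- measurability and integrability
  have hmeas : ∀ k, Measurable (D k) := by
    intro k
    have h1 : Measurable (fun α : ℝ => α * lam k) := measurable_id.mul_const _
    exact ((measurable_Pe.comp h1).div (Real.continuous_sqrt.measurable.comp h1)).sub
      ((continuous_TK (Nk k)).measurable.comp h1)
  have hint : ∀ k, k₀ ≤ k → IntegrableOn (fun α => (D k α) ^ 2) (Icc a b) := by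
    intro k hk
    obtain ⟨h1, h2, h3, h4⟩ := hk₀ k hk
    have hlk := hl.1 k
    have h5 : 1 ≤ a * lam k := by
      rw [div_le_iff₀ ha] at h2
      linarith
    have h6 := UB_intervalIntegrable measurable_Pe continuous_TK abs_Pe_le (Nk k) h5
      (mul_le_mul_of_nonneg_right hab.le hlk.le)
    have h7 := h6.comp_mul_right (c := lam k)
    rw [mul_div_cancel_right₀ _ hlk.ne', mul_div_cancel_right₀ _ hlk.ne'] at h7
    exact (intervalIntegrable_iff_integrableOn_Icc_of_le hab.le).1 h7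
  -- the sum of the integrals is finite
  have hsum : Summable (fun k : ℕ =>
      C * ((1 : ℝ) / (k : ℝ) ^ 2 + (lam 0) ^ (-(1 / 4) : ℝ) * ((β ^ (-(1 / 4) : ℝ)) ^ k))) := by
    refine Summable.mul_left C (Summable.add ?_ (Summable.mul_left _ ?_))
    · exact Real.summable_one_div_nat_pow.2 (by norm_num)
    · exact summable_geometric_of_lt_one (by positivity)
        (Real.rpow_lt_one_of_one_lt_of_neg hβ (by norm_num))
  set G : ℕ → ℝ → ENNReal := fun j α => ENNReal.ofReal ((D (j + k₀) α) ^ 2) with hG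
  have hGm : ∀ j, Measurable (G j) := fun j => ((hmeas _).pow_const 2).ennreal_ofReal
  have hfin : ∫⁻ α in Icc a b, ∑' j, G j α ≠ ⊤ := by
    rw [lintegral_tsum (fun j => (hGm j).aemeasurable)]
    have h1 : ∀ j, ∫⁻ α in Icc a b, G j α ≤ ENNReal.ofReal
        (C * ((1 : ℝ) / ((j + k₀ : ℕ) : ℝ) ^ 2 +
          (lam 0) ^ (-(1 / 4) : ℝ) * ((β ^ (-(1 / 4) : ℝ)) ^ (j + k₀)))) := by
      intro j
      have h2 := hbd (j + k₀) (Nat.le_add_left _ _)
      rw [intervalIntegral.integral_of_le hab.le, ← integral_Icc_eq_integral_Ioc] at h2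
      rw [← ofReal_integral_eq_lintegral_ofReal (hint (j + k₀) (Nat.le_add_left _ _))
        (Filter.Eventually.of_forall fun α => sq_nonneg _)]
      exact ENNReal.ofReal_le_ofReal h2
    refine ne_top_of_le_ne_top ?_ (ENNReal.tsum_le_tsum h1)
    have h3 := (summable_nat_add_iff k₀).2 hsum
    exact h3.tsum_ofReal_ne_top
  have hae := ae_lt_top (Measurable.tsum hGm) hfin
  filter_upwards [hae] with α hα
  have h1 : Tendsto (fun j => G j α) atTop (𝓝 0) :=
    ENNReal.tendsto_atTop_zero_of_tsum_ne_top hα.ne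
  have h2 : Tendsto (fun j => (D (j + k₀) α) ^ 2) atTop (𝓝 0) := by
    have h3 := (ENNReal.tendsto_toReal ENNReal.zero_ne_top).comp h1
    refine h3.congr fun j => ?_
    simp only [hG, Function.comp]
    exact ENNReal.toReal_ofReal (sq_nonneg _)
  have h3 : Tendsto (fun j => |D (j + k₀) α|) atTop (𝓝 0) := by
    have h4 := (Real.continuous_sqrt.tendsto 0).comp h2
    rw [Real.sqrt_zero] at h4
    refine h4.congr fun j => ?_
    simp only [Function.comp]
    exact Real.sqrt_sq_eq_abs _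
  have h4 : Tendsto (fun j => D (j + k₀) α) atTop (𝓝 0) := by
    rw [tendsto_zero_iff_abs_tendsto_zero]
    exact h3
  exact (tendsto_add_atTop_iff_nat k₀).1 h4

end

end Pool.Agent.Helper22.LIL
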